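import Pool.Agent.J4H62.FC.Col

/-!
# Graphs of small rank: universal sets of vertices, and graphs with few codegrees

Let `G` be a finite graph whose adjacency matrix has real rank at most `r`; `N(v)` is the set of the
neighbours of `v`, and a weight `w` is a function on the vertices, `w(X)` the sum of its values on
`X`.

* (Universal sets.) Every set `W` of vertices contains a set `T` of at most `(r + d).choose d`
  vertices such that any `d` inequations `w(N(u)) ≠ c` (with real weights `w` and numbers `c`)
  satisfied by a vertex `u` of `W` are simultaneously satisfied by a vertex of `T`. The same is true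
  for incongruences modulo a prime. For a prime power `q` there is a set `T` of at most
  `(r + t + q - 1).choose r` vertices such that for every vertex `u` of `W`, every set `S` of at
  most `t` vertices and every weight `m` with values in the natural numbers some `v` in `T` has
  `N(v) ∩ S = N(u) ∩ S` and `q` divides `m(N(u) ∖ N(v))`.
* (Few codegrees.) Suppose that every vertex `v` of a set `X` has a test set `S` of at most `t`
  vertices and a positive weight `m` such that the numbers `m(N(u) ∩ N(v) ∩ X)`, where `u` runs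
  through the vertices of `X` which agree with `v` on `S` (`N(u) ∩ S = N(v) ∩ S`), are no twins of
  `v` in the subgraph induced on `X`, and have at most its degree there, take at most `s` values.
  Then `G` has at most `(r + s + t).choose r` classes of twins in the subgraph induced on `X`.
  With `S = {v}` and `m = 1` the condition is about the numbers of common neighbours of `v` and its
  non-neighbours. If this is true for the set `X` of the common neighbours of the vertices of every
  clique with `k` vertices (for `k = 0` this means `X = V`), then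
  `log χ(G) ≤ k log (r + 1) + (s + t) log (r + s + t)`, for any number of vertices.
* (Differences modulo prime powers.) The same with `t + q - 1` in place of `s + t`, if the prime
  power `q` does not divide `m(N(v) ∖ N(u))` for all `u` not after `v` in some order which agree with
  `v` on the test set of `v` and are no twins of `v`.

Proof. The columns of the adjacency matrix span a space of dimension `r`, so products of `d` affine
functions of the columns are entries of a matrix of rank at most `(r + d).choose d`; and the matrices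
in question are triangular (over the reals, or modulo `p`) with nonzero diagonal. The adjacency to
one vertex is one of the affine functions. For the chromatic number we use that the common
neighbourhood of a clique is dominated, up to isolated vertices, by a universal set with `r + 1`
elements.
-/

set_option autoImplicit false

namespace Pool.Agent.Results.MP_3bd889_lc.FewCodegrees

open Finset

variable {V : Type} [Fintype V] [DecidableEq V]

/-- The common neighbours of the vertices of `K`. -/
def common (G : SimpleGraph V) [DecidableRel G.Adj] (K : Finset V) : Finset V :=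
  univ.filter fun x => ∀ a ∈ K, G.Adj a x

/-- Every `v ∈ X` has a test set `S` of at most `t` vertices and a positive weight `m` such that the
numbers `m(N(u) ∩ N(v) ∩ Y)` take at most `s` values, where `u` runs through the vertices in `X` with
`N(u) ∩ Y ≠ N(v) ∩ Y`, `|N(u) ∩ Y| ≤ |N(v) ∩ Y|` and `N(u) ∩ S = N(v) ∩ S`. -/
def Few (G : SimpleGraph V) [DecidableRel G.Adj] (X Y : Finset V) (s t : ℕ) : Prop :=
  ∀ v ∈ X, ∃ (S : Finset V) (m : V → ℝ), S.card ≤ t ∧ (∀ x, 0 < m x) ∧
    ((X.filter fun u => G.neighborFinset u ∩ Y ≠ G.neighborFinset v ∩ Y ∧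
      (G.neighborFinset u ∩ Y).card ≤ (G.neighborFinset v ∩ Y).card ∧
      G.neighborFinset u ∩ S = G.neighborFinset v ∩ S).image
        fun u => ∑ x ∈ G.neighborFinset u ∩ G.neighborFinset v ∩ Y, m x).card ≤ s

/-- For some `h : V → ℝ` every `v ∈ X` has a test set `S` of at most `t` vertices and a weight `m`
with values in the natural numbers such that `q` does not divide `m(N(v) ∖ N(u))` for all `u ∈ X` with
`N(u) ∩ Y ≠ N(v) ∩ Y`, `h(u) ≤ h(v)` and `N(u) ∩ S = N(v) ∩ S`. -/
def Undivided (G : SimpleGraph V) [DecidableRel G.Adj] (X Y : Finset V) (q t : ℕ) : Prop :=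
  ∃ h : V → ℝ, ∀ v ∈ X, ∃ (S : Finset V) (m : V → ℕ), S.card ≤ t ∧
    ∀ u ∈ X, G.neighborFinset u ∩ Y ≠ G.neighborFinset v ∩ Y → h u ≤ h v →
      G.neighborFinset u ∩ S = G.neighborFinset v ∩ S →
        ¬ q ∣ ∑ x ∈ G.neighborFinset v \ G.neighborFinset u, m x

theorem card_few (G : SimpleGraph V) [DecidableRel G.Adj] (r : ℕ)
    (hr : (G.adjMatrix ℝ).rank ≤ r) (X Y : Finset V) (s t : ℕ) (h : Few G X Y s t) :
    (X.image fun u => G.neighborFinset u ∩ Y).card ≤ (r + (s + t)).choose (s + t) := by
  refine Pool.Agent.J4H62.FC.card_image_le_of X _ _ fun T hTX hT => ?_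
  refine Pool.Agent.J4H62.FC.card_le_codegree G r hr T Y hT s t fun v hv => ?_
  obtain ⟨S, m, hS, hm, hs⟩ := h v (hTX hv)
  refine ⟨S, m, hS, hm, le_trans (Finset.card_le_card (Finset.image_subset_image ?_)) hs⟩
  intro u hu
  rw [Finset.mem_filter] at hu ⊢
  exact ⟨hTX hu.1, fun hc => hu.2.1 (hT u hu.1 v hv hc), hu.2.2.1, hu.2.2.2⟩

theorem card_undivided (G : SimpleGraph V) [DecidableRel G.Adj] (r : ℕ)
    (hr : (G.adjMatrix ℝ).rank ≤ r) (X Y : Finset V) (q t : ℕ) (hq : IsPrimePow q)
    (h : Undivided G X Y q t) :
    (X.image fun u => G.neighborFinset u ∩ Y).card ≤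
      (r + (t + (q - 1))).choose (t + (q - 1)) := by
  obtain ⟨h, hh⟩ := h
  refine Pool.Agent.J4H62.FC.card_image_le_of X _ _ fun T hTX hT => ?_
  refine Pool.Agent.J4H62.FC.card_le_primePow G r hr T h q t hq fun v hv => ?_
  obtain ⟨S, m, hS, hs⟩ := hh v (hTX hv)
  exact ⟨S, m, hS, fun u hu huv hle hag => hs u (hTX hu) (fun hc => huv (hT u hu v hv hc)) hle hag⟩

theorem log_le (G : SimpleGraph V) [DecidableRel G.Adj] (r k d : ℕ)
    (h : G.chromaticNumber.toNat ≤ (r + 1) ^ k * (r + d).choose d) :
    Real.log (G.chromaticNumber.toNat : ℝ) ≤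
      k * Real.log (r + 1) + d * Real.log (r + d) := by
  have h2 : G.chromaticNumber.toNat ≤ (r + 1) ^ k * (r + d) ^ d :=
    h.trans (Nat.mul_le_mul_left _ (Nat.choose_le_pow _ _))
  have h3 : 0 ≤ Real.log ((r : ℝ) + d) := by
    have := Real.log_natCast_nonneg (r + d)
    rwa [Nat.cast_add] at this
  have h3' : 0 ≤ Real.log ((r : ℝ) + 1) := Real.log_nonneg (by linarith [Nat.cast_nonneg (α := ℝ) r])
  rcases Nat.eq_zero_or_pos G.chromaticNumber.toNat with h0 | h0
  · rw [h0, Nat.cast_zero, Real.log_zero]
    positivity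
  · have h4 : (G.chromaticNumber.toNat : ℝ) ≤ ((r : ℝ) + 1) ^ k * ((r : ℝ) + d) ^ d := by
      exact_mod_cast h2
    have h5 := Real.log_le_log (by exact_mod_cast h0) h4
    have h6 : (((r : ℝ) + 1) ^ k) ≠ 0 := by positivity
    have h7 : (((r : ℝ) + d) ^ d) ≠ 0 := by
      intro hz
      rw [hz, mul_zero] at h4
      have : (0 : ℝ) < (G.chromaticNumber.toNat : ℝ) := by exact_mod_cast h0
      linarith
    rwa [Real.log_mul h6 h7, Real.log_pow, Real.log_pow] at h5

theorem result (G : SimpleGraph V) [DecidableRel G.Adj]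
    (r : ℕ) (hr : (G.adjMatrix ℝ).rank ≤ r) :
    -- universal sets for inequations
    (∀ (W : Finset V) (d : ℕ), ∃ T ⊆ W, T.card ≤ (r + d).choose d ∧
      ∀ u ∈ W, ∀ H : Finset ((V → ℝ) × ℝ), H.card ≤ d →
        (∀ a ∈ H, ∑ x ∈ G.neighborFinset u, a.1 x ≠ a.2) →
        ∃ v ∈ T, ∀ a ∈ H, ∑ x ∈ G.neighborFinset v, a.1 x ≠ a.2) ∧
    -- universal sets for incongruences modulo a prime
    (∀ (W : Finset V) (d p : ℕ), p.Prime → ∃ T ⊆ W, T.card ≤ (r + d).choose d ∧
      ∀ u ∈ W, ∀ H : Finset ((V → ℤ) × ℤ), H.card ≤ d →
        (∀ a ∈ H, ¬ ∑ x ∈ G.neighborFinset u, a.1 x ≡ a.2 [ZMOD p]) →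
        ∃ v ∈ T, ∀ a ∈ H, ¬ ∑ x ∈ G.neighborFinset v, a.1 x ≡ a.2 [ZMOD p]) ∧
    -- universal sets modulo a prime power
    (∀ (W : Finset V) (q t : ℕ), IsPrimePow q →
      ∃ T ⊆ W, T.card ≤ (r + (t + (q - 1))).choose (t + (q - 1)) ∧
        ∀ u ∈ W, ∀ (S : Finset V) (m : V → ℕ), S.card ≤ t →
          ∃ v ∈ T, G.neighborFinset v ∩ S = G.neighborFinset u ∩ S ∧
            q ∣ ∑ x ∈ G.neighborFinset u \ G.neighborFinset v, m x) ∧
    -- few codegrees
    (∀ (X Y : Finset V) (s t : ℕ), Few G X Y s t →
      (X.image fun u => G.neighborFinset u ∩ Y).card ≤ (r + (s + t)).choose (s + t)) ∧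
    (∀ k s t : ℕ, (∀ K, G.IsNClique k K → Few G (common G K) (common G K) s t) →
      Real.log (G.chromaticNumber.toNat : ℝ) ≤
        k * Real.log (r + 1) + (s + t : ℕ) * Real.log (r + (s + t : ℕ))) ∧
    -- differences of neighbourhoods modulo a prime power
    (∀ (X Y : Finset V) (q t : ℕ), IsPrimePow q → Undivided G X Y q t →
      (X.image fun u => G.neighborFinset u ∩ Y).card ≤
        (r + (t + (q - 1))).choose (t + (q - 1))) ∧
    (∀ k q t : ℕ, IsPrimePow q →
      (∀ K, G.IsNClique k K → Undivided G (common G K) (common G K) q t) →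
      Real.log (G.chromaticNumber.toNat : ℝ) ≤
        k * Real.log (r + 1) + (t + (q - 1) : ℕ) * Real.log (r + (t + (q - 1) : ℕ))) := by
  refine ⟨fun W d => Pool.Agent.J4H62.FC.universal G r hr W d,
    fun W d p hp => Pool.Agent.J4H62.FC.universal_mod G r hr W d p hp,
    fun W q t hq => Pool.Agent.J4H62.FC.universal_primePow G r hr W q t hq,
    fun X Y s t h => card_few G r hr X Y s t h, ?_,
    fun X Y q t hq h => card_undivided G r hr X Y q t hq h, ?_⟩
  · intro k s t h
    exact log_le G r k (s + t) (Pool.Agent.J4H62.FC.cliques G r hr k _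
      (Nat.choose_pos (by omega)) fun K hK =>
        Pool.Agent.J4H62.FC.base G _ _ (card_few G r hr _ _ s t (h K hK)))
  · intro k q t hq h
    exact log_le G r k (t + (q - 1)) (Pool.Agent.J4H62.FC.cliques G r hr k _
      (Nat.choose_pos (by omega)) fun K hK =>
        Pool.Agent.J4H62.FC.base G _ _ (card_undivided G r hr _ _ q t hq (h K hK)))

end Pool.Agent.Results.MP_3bd889_lc.FewCodegrees
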