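import Pool.Agent.J4H62.VC.Loc

/-!
# Graphs of small rank whose adjacent vertices have few common neighbours

Let `G` be a finite graph whose adjacency matrix has real rank at most `r`, and let `0 < ε ≤ 1`.

* Let `m` be a probability measure on the vertices such that all neighbourhoods have measure at least
  `p`, and such that `m(N(u) ∩ N(v)) ≤ (1 - ε) m(N(u)) m(N(v))` for all edges `u v`. Then
  `log₂ χ(G) ≤ (4 / ε) (log₂ r + 1) (log₂ (1 / p) + 1)`. For instance, if `G` has `n` vertices and
  minimum degree `d`, and every edge is in at most `(1 - ε) d² / n` triangles, then `χ(G)` is at most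
  `(2 n / d) ^ (4 (log₂ r + 1) / ε)`.
* If the automorphism group of `G` is transitive on the `n` vertices, `d` is the degree, and every
  edge is in at most `(1 - ε) d² / n` triangles (`d² / n` is the expected number for a random graph),
  then `log₂ χ(G) ≤ (16 / ε) (log₂ r + 1)²`, without any condition on `d`.

So in these classes the bound of the question holds: it is enough that the adjacent vertices have a
little less common neighbours than expected. The graphs can contain all small graphs, they can
have any number of vertices, and twins.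

Proof. The neighbourhood of a random vertex, thinned out to have constant probability `p` of
containing a vertex, contains every edge with probability at most `(1 - ε) p²`. The intersection
`W` of an arbitrary set `X` with `k` independent copies, `k` a little larger than `(log r) / ε`, has
for some choice at least `p ^ k |X| / √2` vertices and at most `|W|² / (8 r)` pairs of adjacent
vertices; and then `W` contains a stable set with `|W| / 4` vertices by a rank argument. In the
vertex-transitive case, if `d < n / (8 r)`, then the same argument gives a stable set with `n / 4`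
vertices, and we use random translates of it.
-/

set_option autoImplicit false

namespace Pool.Agent.Results.MP_3bd889_lc.LocallySparse

open Finset

theorem result :
    -- a measure on the vertices
    (∀ (V : Type) [Fintype V] [DecidableEq V] (G : SimpleGraph V) [DecidableRel G.Adj] (r : ℕ),
      1 ≤ r → (G.adjMatrix ℝ).rank ≤ r →
      ∀ (m : V → ℝ) (p ε : ℝ), (∀ w, 0 ≤ m w) → ∑ w, m w = 1 → 0 < p → p ≤ 1 → 0 < ε → ε ≤ 1 →
        (∀ v, p ≤ ∑ w with G.Adj v w, m w) →
        (∀ u v, G.Adj u v → ∑ w with G.Adj u w ∧ G.Adj v w, m w ≤
          (1 - ε) * (∑ w with G.Adj u w, m w) * ∑ w with G.Adj v w, m w) →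
        Real.logb 2 (G.chromaticNumber.toNat : ℝ) ≤
          4 / ε * (Real.logb 2 r + 1) * (Real.logb 2 (1 / p) + 1)) ∧
    -- vertex-transitive graphs
    (∀ (V : Type) [Fintype V] [DecidableEq V] (G : SimpleGraph V) [DecidableRel G.Adj] (r : ℕ),
      1 ≤ r → (G.adjMatrix ℝ).rank ≤ r → (∀ v w : V, ∃ g : G ≃g G, g v = w) →
      ∀ (ε : ℝ), 0 < ε → ε ≤ 1 →
        (∀ u v, G.Adj u v → ((univ.filter (fun w => G.Adj u w ∧ G.Adj v w)).card : ℝ) *
          Fintype.card V ≤ (1 - ε) * (G.maxDegree : ℝ) ^ 2) →
        Real.logb 2 (G.chromaticNumber.toNat : ℝ) ≤ 16 / ε * (Real.logb 2 r + 1) ^ 2) :=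
  ⟨fun _ _ _ G _ r hr1 hr m _ _ hm0 hm1 hp hp1 hε hε1 hdeg hco =>
      Pool.Agent.J4H62.VC.bound_of_nbhd G r hr1 hr m hm0 hm1 hp hp1 hε hε1 hdeg hco,
    fun _ _ _ G _ r hr1 hr hV _ hε hε1 h =>
      Pool.Agent.J4H62.VC.bound_of_vtrans_triangles G r hr1 hr hV hε hε1 h⟩

end Pool.Agent.Results.MP_3bd889_lc.LocallySparse
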