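import Pool.Agent.J4H91.SD.Iter

/-!
# Stable sets in graphs of rank `r` and density `polylog(r) / r`

Let `G` be a finite graph whose adjacency matrix has real rank at most `r`, and let `L ≥ 1`.

* Every set `W` of vertices which contains at most `L |W|² / r` ordered pairs of adjacent vertices
  contains a stable set with at least `2 ^ (-2¹⁵ L (1 + log L)²) |W|` vertices.
* If `G` is vertex-transitive with `n` vertices and all degrees are at most `L n / r`, then
  `log₂ χ(G) ≤ 2¹⁶ L (1 + log L)² + log₂ r`.

A vertex-transitive graph of rank `r` with at least one edge has degree at least `n / r`, so the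
second part is about the graphs whose degree is the smallest possible up to the factor `L`, and for
`L = polylog(r)` the bound is the one of the question. The rank argument of Nisan and Wigderson
handles the density `1 / (8 r)` in the first part.

Proof. Let `W` have no stable subset with a quarter of its vertices. Then every `B ⊆ W` with at
least half of the vertices contains a matching with `|B| / 8` edges or more, and the sum of the
absolute values of the negative eigenvalues of `G[B]` (at most `r` of them) is at least the number
of the edges of that matching. So some vector with small norm has a very negative energy. Adding up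
such vectors, with random signs, we find vectors with norm at most one at each coordinate whose
energies are at most `-|W|² / (32 r)` in total; rounding them at random produces a subset whose
density is smaller by `1 / (128 r T²)`, where `T² = 8 log (64 L)`. We repeat until the density is
below `1 / (8 r)`.
-/

set_option autoImplicit false

namespace Pool.Agent.Results.MP_3bd889_lc.SparseDensity

theorem result (V : Type) [Fintype V] (G : SimpleGraph V) [DecidableRel G.Adj] (r : ℕ)
    (hr1 : 1 ≤ r) (hr : (G.adjMatrix ℝ).rank ≤ r) (L : ℝ) (hL : 1 ≤ L) :
    -- stable sets in the sparse sets of vertices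
    (∀ W : Finset V,
      (r : ℝ) * ((W ×ˢ W).filter (fun p : V × V => G.Adj p.1 p.2)).card ≤ L * (W.card : ℝ) ^ 2 →
      ∃ S ⊆ W, (∀ u ∈ S, ∀ v ∈ S, ¬ G.Adj u v) ∧
        (W.card : ℝ) ≤ (2 : ℝ) ^ (2 ^ 15 * L * (1 + Real.log L) ^ 2) * S.card) ∧
    -- vertex-transitive graphs
    ((∀ v w : V, ∃ g : G ≃g G, g v = w) →
      (∀ v, (r : ℝ) * (G.degree v) ≤ L * Fintype.card V) →
      Real.logb 2 (G.chromaticNumber.toNat : ℝ) ≤
        2 ^ 16 * L * (1 + Real.log L) ^ 2 + Real.logb 2 r) := by
  classical
  exact ⟨fun W hW => Pool.Agent.J4H91.SD.stable G r hr1 hr L hL W hW,
    fun hG hd => Pool.Agent.J4H91.SD.chromatic G r hr1 hr L hL hG hd⟩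

end Pool.Agent.Results.MP_3bd889_lc.SparseDensity
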