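import Pool.Agent.J4H62.VC.Equiv

/-!
# Symmetric graphs of small rank: one sparse spot suffices

Let `G` be a finite graph with `n` vertices whose adjacency matrix has real rank at most `r`, and
let `W` be a nonempty set of vertices and `0 < ε ≤ 1`.

* If the automorphism group is transitive on the vertices, and for every edge the proportion of
  the automorphisms which map it into `W` is at most `(1 - ε) (|W| / n)²`, then
  `log₂ χ(G) ≤ (4 / ε) (log₂ r + 1) (log₂ (n / |W|) + 1)`.
* If the automorphism group is transitive on the edges, it is enough that `W` contains at most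
  `(1 - ε) (|W| / n)² e(G)` of the `e(G)` edges. So in an edge-transitive graph of small rank a
  single set of vertices which is a little sparser than the whole graph gives a colouring with few
  colours of the whole graph. The bound does not depend on `n`.
* It follows that the question for edge-transitive graphs (is `log χ(G)` bounded by a polynomial in
  the logarithm of the rank?) is equivalent to the existence of such sets `W` with
  `|W| ≥ 2 ^ (-polylog r) n` and `ε ≥ 1 / polylog r`. For general graphs one needs stable sets, or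
  sparse sets in all induced subgraphs.

Proof. We intersect `k` random translates of `W` with an arbitrary set `X` of vertices, `k` a little
larger than `(log r) / ε`. For some choice the intersection has at least `(|W| / n) ^ k |X| / √2`
vertices and at most `1 / (8 r)` of the pairs of its vertices are adjacent; and then it contains a
stable set with one quarter of its vertices by a rank argument.
-/

set_option autoImplicit false

namespace Pool.Agent.Results.MP_3bd889_lc.SparseSpot

open Finset

/-- The graph has no isolated vertices, and its automorphism group is transitive on the edges. -/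
def EdgeTransitive {V : Type} (G : SimpleGraph V) : Prop :=
  (∀ v, ∃ w, G.Adj v w) ∧ ∀ v w v' w' : V, G.Adj v w → G.Adj v' w' →
    ∃ g : G ≃g G, (g v = v' ∧ g w = w') ∨ (g v = w' ∧ g w = v')

/-- The number of the ordered pairs of adjacent vertices of `W`. -/
def pairs {V : Type} [Fintype V] [DecidableEq V] (G : SimpleGraph V) [DecidableRel G.Adj]
    (W : Finset V) : ℕ :=
  ((W ×ˢ W).filter (fun a : V × V => G.Adj a.1 a.2)).card

/-- Q1 for edge-transitive graphs. -/
def Question : Prop :=
  ∃ C : ℕ, ∀ (V : Type) [Fintype V] [DecidableEq V] (G : SimpleGraph V) [DecidableRel G.Adj]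
    (r : ℕ), 2 ≤ r → (G.adjMatrix ℝ).rank ≤ r → EdgeTransitive G →
      Real.logb 2 (G.chromaticNumber.toNat : ℝ) ≤ C * (Real.logb 2 r) ^ C

/-- Every edge-transitive graph of rank at most `r` with `n > 0` vertices has a set `W` of at least
`2 ^ (-C (log₂ r) ^ C) n` vertices whose number of edges is smaller than `(|W| / n)²` times the number
of edges of the graph by the factor `1 - 1 / (C (log₂ r) ^ C)`. -/
def Spots : Prop :=
  ∃ C : ℕ, 1 ≤ C ∧ ∀ (V : Type) [Fintype V] [DecidableEq V] [Nonempty V] (G : SimpleGraph V)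
    [DecidableRel G.Adj] (r : ℕ), 2 ≤ r → (G.adjMatrix ℝ).rank ≤ r → EdgeTransitive G →
      ∃ W : Finset V, W.Nonempty ∧
        Real.logb 2 (Fintype.card V / W.card) ≤ C * (Real.logb 2 r) ^ C ∧
        (pairs G W : ℝ) * (Fintype.card V) ^ 2 ≤
          (1 - 1 / (C * (Real.logb 2 r) ^ C)) * (W.card) ^ 2 * pairs G univ

theorem one_le_logb {r : ℕ} (hr : 2 ≤ r) : 1 ≤ Real.logb 2 (r : ℝ) := by
  have hr' : (2 : ℝ) ≤ r := by exact_mod_cast hr
  rw [Real.le_logb_iff_rpow_le (by norm_num) (by linarith), Real.rpow_one]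
  exact hr'

theorem spot {V : Type} [Fintype V] [DecidableEq V] (G : SimpleGraph V) [DecidableRel G.Adj]
    (r : ℕ) (hr1 : 1 ≤ r) (hr : (G.adjMatrix ℝ).rank ≤ r) (hE : EdgeTransitive G) (W : Finset V)
    (hW : W.Nonempty) (ε : ℝ) (hε : 0 < ε) (hε1 : ε ≤ 1)
    (h : (pairs G W : ℝ) * (Fintype.card V) ^ 2 ≤ (1 - ε) * (W.card) ^ 2 * pairs G univ) :
    Real.logb 2 (G.chromaticNumber.toNat : ℝ) ≤
      4 / ε * (Real.logb 2 r + 1) * (Real.logb 2 (Fintype.card V / W.card) + 1) := by
  refine Pool.Agent.J4H62.VC.bound_of_spot G r hr1 hr hE.1 hE.2 W hW hε hε1 ?_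
  have h1 : pairs G univ = ((univ : Finset (V × V)).filter (fun a => G.Adj a.1 a.2)).card := by
    rw [pairs, univ_product_univ]
  rw [h1] at h
  exact h

theorem result :
    -- vertex-transitive graphs
    (∀ (V : Type) [Fintype V] [DecidableEq V] (G : SimpleGraph V) [DecidableRel G.Adj]
      [Fintype (G ≃g G)] (r : ℕ), 1 ≤ r → (G.adjMatrix ℝ).rank ≤ r →
      (∀ v w : V, ∃ g : G ≃g G, g v = w) →
      ∀ (W : Finset V) (ε : ℝ), W.Nonempty → 0 < ε → ε ≤ 1 →
        (∀ u v, G.Adj u v → (((univ : Finset (G ≃g G)).filter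
          (fun g => g u ∈ W ∧ g v ∈ W)).card : ℝ) * (Fintype.card V) ^ 2 ≤
            (1 - ε) * (W.card) ^ 2 * Fintype.card (G ≃g G)) →
        Real.logb 2 (G.chromaticNumber.toNat : ℝ) ≤
          4 / ε * (Real.logb 2 r + 1) * (Real.logb 2 (Fintype.card V / W.card) + 1)) ∧
    -- edge-transitive graphs
    (∀ (V : Type) [Fintype V] [DecidableEq V] (G : SimpleGraph V) [DecidableRel G.Adj] (r : ℕ),
      1 ≤ r → (G.adjMatrix ℝ).rank ≤ r → EdgeTransitive G →
      ∀ (W : Finset V) (ε : ℝ), W.Nonempty → 0 < ε → ε ≤ 1 →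
        (pairs G W : ℝ) * (Fintype.card V) ^ 2 ≤ (1 - ε) * (W.card) ^ 2 * pairs G univ →
        Real.logb 2 (G.chromaticNumber.toNat : ℝ) ≤
          4 / ε * (Real.logb 2 r + 1) * (Real.logb 2 (Fintype.card V / W.card) + 1)) ∧
    -- the question for edge-transitive graphs
    (Question ↔ Spots) := by
  refine ⟨?_, fun V _ _ G _ r hr1 hr hE W ε hW hε hε1 h => spot G r hr1 hr hE W hW ε hε hε1 h,
    ?_, ?_⟩
  · intro V _ _ G _ inst r hr1 hr hV W ε hW hε hε1 h
    refine Pool.Agent.J4H62.VC.bound_of_vtrans G r hr1 hr hV W hW hε hε1 ?_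
    intro u v huv
    have h1 := h u v huv
    rwa [Subsingleton.elim inst (Pool.Agent.J4H62.VC.instFintypeIso_pool G)] at h1
  · rintro ⟨C, h⟩
    refine ⟨C + 1, by omega, ?_⟩
    intro V _ _ _ G _ r hr2 hr hE
    obtain ⟨W, hW, hst, hlog⟩ := Pool.Agent.J4H62.VC.exists_class G
    have hL := one_le_logb hr2
    set L := Real.logb 2 (r : ℝ) with hLdef
    have h1 : (C : ℝ) * L ^ C ≤ ((C + 1 : ℕ) : ℝ) * L ^ (C + 1) := by
      push_cast
      refine mul_le_mul (by linarith) ?_ (by positivity) (by positivity)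
      rw [pow_succ]
      exact le_mul_of_one_le_right (by positivity) hL
    refine ⟨W, hW, (hlog.trans (h V G r hr2 hr hE)).trans h1, ?_⟩
    have h2 : pairs G W = 0 := by
      rw [pairs, card_eq_zero, filter_eq_empty_iff]
      rintro ⟨a, b⟩ hab hadj
      rw [mem_product] at hab
      exact hst a hab.1 b hab.2 hadj
    have h3 : (1 : ℝ) ≤ ((C + 1 : ℕ) : ℝ) * L ^ (C + 1) := by
      have : (1 : ℝ) ≤ ((C + 1 : ℕ) : ℝ) := by
        push_cast
        linarith [show (0 : ℝ) ≤ C from Nat.cast_nonneg C]
      have h4 : (1 : ℝ) ≤ L ^ (C + 1) := one_le_pow₀ hL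
      nlinarith
    rw [h2, Nat.cast_zero, zero_mul]
    have h4 : 1 / (((C + 1 : ℕ) : ℝ) * L ^ (C + 1)) ≤ 1 := by
      rw [div_le_one (by linarith)]
      exact h3
    have h5 : 0 ≤ 1 - 1 / (((C + 1 : ℕ) : ℝ) * L ^ (C + 1)) := by linarith
    positivity
  · rintro ⟨C, hC1, h⟩
    refine ⟨16 * C ^ 2 + 2 * C + 1, ?_⟩
    intro V _ _ G _ r hr2 hr hE
    have hL := one_le_logb hr2
    set L := Real.logb 2 (r : ℝ) with hLdef
    have hC' : (1 : ℝ) ≤ C := by exact_mod_cast hC1
    rcases isEmpty_or_nonempty V with hemp | hne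
    · have hc : G.Colorable 1 := ⟨SimpleGraph.Coloring.mk (fun _ => 0)
        (fun {v w} _ => (hemp.false v).elim)⟩
      refine Pool.Agent.J4H62.VC.logb_chromatic_le G hc ?_ (by positivity)
      rw [Nat.cast_one, Real.logb_one]
      positivity
    obtain ⟨W, hW, hWn, hWe⟩ := h V G r hr2 hr hE
    have hx : (1 : ℝ) ≤ C * L ^ C := by
      have h4 : (1 : ℝ) ≤ L ^ C := one_le_pow₀ hL
      nlinarith
    set x : ℝ := C * L ^ C with hxdef
    have h1 := spot G r (by omega) hr hE W hW (1 / x) (by positivity)
      (by rw [div_le_one (by linarith)]; exact hx) hWe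
    refine h1.trans ?_
    have h2 : 4 / (1 / x) * (L + 1) * (Real.logb 2 (Fintype.card V / W.card) + 1) ≤
        4 * x * (2 * L) * (2 * x) := by
      have e : 4 / (1 / x) = 4 * x := by field_simp
      rw [e]
      refine mul_le_mul (mul_le_mul_of_nonneg_left (by linarith) (by positivity)) (by linarith)
        ?_ (by positivity)
      have hw : (0 : ℝ) < W.card := by exact_mod_cast hW.card_pos
      have hwn : (W.card : ℝ) ≤ Fintype.card V := by exact_mod_cast card_le_univ W
      have : 0 ≤ Real.logb 2 ((Fintype.card V : ℝ) / W.card) :=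
        Real.logb_nonneg (by norm_num) (by rw [le_div_iff₀ hw]; linarith)
      linarith
    refine h2.trans ?_
    have h3 : 4 * x * (2 * L) * (2 * x) = 16 * (C : ℝ) ^ 2 * L ^ (2 * C + 1) := by
      rw [hxdef]
      ring
    rw [h3]
    push_cast
    refine mul_le_mul ?_ ?_ (by positivity) (by positivity)
    · have : (0 : ℝ) ≤ 2 * C + 1 := by positivity
      linarith
    · exact pow_le_pow_right₀ hL (by omega)

end Pool.Agent.Results.MP_3bd889_lc.SparseSpot
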